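import Pool.Agent.TH212.PlaneHH
import Pool.Agent.TH212.CuspComm

/-!
The (non-normal) irreducible affine Poisson surface `X = Spec (ℂ + (x, y) ^ 2)` has the symplectic
resolution `X~ = 𝔸² → X`, and for every quantization `A` of `X~` the zeroth Hochschild homology of
`A[ħ⁻¹]` is zero, whereas the zeroth Poisson homology of `X` is not.
-/

set_option autoImplicit false

namespace Pool.Agent.Results.MP_86c931_ag.NonNormalDegreeZero

open Pool.Agent.TH212

/-- Let `O` be the algebra of all `f ∈ ℂ[x, y]` with `∂_x f (0) = ∂_y f (0) = 0`, with the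
restriction `P` of the bracket `Q` of `ℂ[x, y]`, `{f, g} = ∂_y f ∂_x g - ∂_x f ∂_y g`. Then `O` is
a finitely generated domain, the morphism `X~ = 𝔸² → X = Spec O` is a symplectic resolution,
`HP_0(O) ≠ 0`, the Poisson algebra `ℂ[x, y] = O(X~)` has a deformation quantization, and
`HH_0(A[ħ⁻¹]) = 0` for every deformation quantization `A` of `ℂ[x, y]`. -/
theorem result :
    ∃ (O : Subalgebra ℂ (MvPolynomial (Fin 2) ℂ)) (P : PoissonBracket O)
      (Q : PoissonBracket (MvPolynomial (Fin 2) ℂ)),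
      (∀ f, f ∈ O ↔ ∀ i, MvPolynomial.constantCoeff (MvPolynomial.pderiv i f) = 0) ∧
      (∀ f g, Q.br f g = MvPolynomial.pderiv 1 f * MvPolynomial.pderiv 0 g -
        MvPolynomial.pderiv 0 f * MvPolynomial.pderiv 1 g) ∧
      IsDomain O ∧ Algebra.FiniteType ℂ O ∧ IsSymplecticResolution P Q O.val ∧
      (∃ x : P.HP0, x ≠ 0) ∧
      (∃ (A : Type) (_ : Ring A) (_ : Algebra (PowerSeries ℂ) A)
        (π : A →+* MvPolynomial (Fin 2) ℂ), IsDeformationQuantization Q π) ∧
      ∀ (A : Type) [Ring A] [Algebra (PowerSeries ℂ) A] (π : A →+* MvPolynomial (Fin 2) ℂ),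
        IsDeformationQuantization Q π → ∀ ξ : HH0 A, ξ = 0 :=
  ⟨OX, PO, PR, fun _ => mem_OX, pb_apply, inferInstance, finiteType_OX, resolution,
    ⟨_, mk_one_ne⟩, ⟨W.AA, inferInstance, inferInstance, W.piR, W.quantization⟩,
    fun _ _ _ _ h ξ => hh0_zero h ξ⟩

end Pool.Agent.Results.MP_86c931_ag.NonNormalDegreeZero
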